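import Pool.Agent.H950.NT.Num

/-!
# Critical bond percolation in `Λ_n`: gaps between the diameters of the large clusters

The diameters of different macroscopic clusters of `Λ_n` differ by more than `ε n`, and none of
them lies in a given window of width `ε n`, except with probability at most a power of
`ε + 1 / n`.  In particular the cluster of largest diameter is unique, up to an event of
probability at most a power of `1 / n`.

The model (`box`, `edges`, `prob`, `cluster`, `sqDist`, `Largest`) is the one of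
`Pool.Graph.R_seed8.H342R2.Per.Plain`.
-/

set_option autoImplicit false

namespace Pool.Agent.Results.MP_6bd702_pr.DiameterGaps

open H342P.Plain Pool.Agent.H950.NT

/-- The Euclidean diameter of the cluster of `v`. -/
noncomputable def diam (F : Finset Edge) (v : ℤ × ℤ) : ℝ :=
  sSup {d : ℝ | ∃ a ∈ cluster F v, ∃ b ∈ cluster F v, d = Real.sqrt (sqDist a b)}

theorem mem_vb_iff {n : ℕ} {v : ℤ × ℤ} : v ∈ vb n ↔ v ∈ box n := Iff.rfl

theorem diam_greatest {n : ℕ} {F : Finset Edge} (hF : F ⊆ edges n) {v : ℤ × ℤ} (hv : v ∈ box n) :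
    IsGreatest {d : ℝ | ∃ a ∈ cluster F v, ∃ b ∈ cluster F v, d = Real.sqrt (sqDist a b)}
      (Real.sqrt (DN n F v)) := by
  rw [edges_eq] at hF
  constructor
  · obtain ⟨a, ha, b, hb, h⟩ := ex_DX (X := cl n F v) ⟨v, self_cl hv⟩
    refine ⟨a, (mem_cluster _ _ _).mpr (mem_cl.mp ha).2, b,
      (mem_cluster _ _ _).mpr (mem_cl.mp hb).2, ?_⟩
    have e : ((sqDist a b : ℤ) : ℝ) = ((DN n F v : ℕ) : ℝ) := by
      have h' : sqDist a b = ((DN n F v : ℕ) : ℤ) := h
      rw [h']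
      push_cast
      rfl
    rw [e]
  · rintro d ⟨a, ha, b, hb, rfl⟩
    rw [mem_cluster] at ha hb
    have ha' : a ∈ cl n F v := mem_cl.mpr ⟨reach_vb (by exact_mod_cast hF) hv ha, ha⟩
    have hb' : b ∈ cl n F v := mem_cl.mpr ⟨reach_vb (by exact_mod_cast hF) hv hb, hb⟩
    apply Real.sqrt_le_sqrt
    have h : sqDist a b ≤ ((DN n F v : ℕ) : ℤ) := le_DX ha' hb'
    exact_mod_cast h

theorem diam_eq {n : ℕ} {F : Finset Edge} (hF : F ⊆ edges n) {v : ℤ × ℤ} (hv : v ∈ box n) :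
    diam F v = Real.sqrt (DN n F v) := (diam_greatest hF hv).csSup_eq

theorem prob_mono {n : ℕ} {A B : Finset Edge → Prop} (h : ∀ F, F ⊆ edges n → A F → B F) :
    prob n A ≤ prob n B := by
  rw [prob_eq n B]
  exact prob_le_of_pr h

theorem prob_or {n : ℕ} {A B : Finset Edge → Prop} :
    prob n (fun F => A F ∨ B F) ≤ prob n A + prob n B := by
  rw [prob_eq, prob_eq, prob_eq]
  exact H974.Pr_or_le okh _ _ _

theorem prob_le_one {n : ℕ} {A : Finset Edge → Prop} : prob n A ≤ 1 := by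
  rw [prob_eq]
  exact H974.Pr_le_one okh _ _

/-- The diameter of a cluster of maximal diameter is not small. -/
theorem small_largest {n : ℕ} {ρ : ℝ} (hn : 1 ≤ n) (hρ : 0 < ρ) (hρ1 : ρ ≤ 1/5)
    (hρn : 1 ≤ ρ * n) :
    prob n (fun F => ∃ v, Largest n F v ∧ diam F v < 7/5 * (ρ * n)) ≤ 6 * ρ := by
  have hn0 : (0:ℝ) < n := by exact_mod_cast hn
  set m : ℕ := ⌈ρ * n / 2⌉₊ with hm
  have hm1 : ρ * n / 2 ≤ m := Nat.le_ceil _
  have hm2 : (m:ℝ) < ρ * n / 2 + 1 := Nat.ceil_lt_add_one (by positivity)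
  set L : ℕ := 3 * m with hL
  have hm0 : 0 < m := by
    have : (0:ℝ) < m := lt_of_lt_of_le (by positivity) hm1
    exact_mod_cast this
  have hL1 : (L:ℝ) + 1 ≤ 11/2 * (ρ * n) := by
    rw [hL]
    push_cast
    linarith
  have hLn : L ≤ n := by
    have h1 : (L:ℝ) ≤ 9/2 * (ρ * n) := by
      rw [hL]
      push_cast
      linarith
    have h2 : 9/2 * (ρ * n) ≤ n := by nlinarith
    exact_mod_cast h1.trans h2
  set K : ℕ := (n + 1) / (L + 1) with hK
  have hK1 : K * (L + 1) ≤ n + 1 := Nat.div_mul_le_self _ _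
  have hK2 : n + 1 < (K + 1) * (L + 1) := by
    have := Nat.lt_div_mul_add (a := n + 1) (b := L + 1) (by omega)
    rw [← hK] at this
    nlinarith
  have h1 : prob n (fun F => ∃ v, Largest n F v ∧ diam F v < 7/5 * (ρ * n)) ≤ (1/2) ^ K := by
    refine le_trans (prob_le_of_pr ?_) (H342P.pr_not_big (m := (m:ℤ)) (L := L) (K := K)
      (by omega) (by positivity) (by rw [hL]; push_cast; exact le_rfl) hK1 hLn)
    rintro F hF ⟨v, hv, hd⟩ hbig
    obtain ⟨c, d, hc, hd', hcd, h8⟩ := hbig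
    obtain ⟨a, b, ha, hb, hmax⟩ := isMax_of_largest hv
    have h2 := h8.trans (hmax c d hc hd' hcd)
    rw [diam_eq hF hv.1] at hd
    have hF' := hF
    rw [edges_eq] at hF'
    have ha' : a ∈ cl n F v := mem_cl.mpr ⟨reach_vb (by exact_mod_cast hF') hv.1 ha, ha⟩
    have hb' : b ∈ cl n F v := mem_cl.mpr ⟨reach_vb (by exact_mod_cast hF') hv.1 hb, hb⟩
    have h3 : 8 * (m:ℤ) ^ 2 ≤ ((DN n F v : ℕ) : ℤ) := h2.trans (le_DX ha' hb')
    have h4 : 8 * (m:ℝ) ^ 2 ≤ ((DN n F v : ℕ) : ℝ) := by exact_mod_cast h3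
    have h5 : 7/5 * (ρ * n) ≤ Real.sqrt (DN n F v) := by
      apply Real.le_sqrt_of_sq_le
      nlinarith
    linarith
  refine h1.trans ?_
  have h2 : ((1:ℝ)/2) ^ K ≤ 1 / (K + 1) := by
    rw [one_div_pow]
    apply one_div_le_one_div_of_le (by positivity)
    have : K + 1 ≤ 2 ^ K := Nat.lt_two_pow_self
    exact_mod_cast this
  refine h2.trans ?_
  rw [div_le_iff₀ (by positivity)]
  have h3 : (n:ℝ) + 1 < (K + 1) * (L + 1) := by exact_mod_cast hK2
  have h4 : ((K:ℝ) + 1) * (L + 1) ≤ (K + 1) * (11/2 * (ρ * n)) :=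
    mul_le_mul_of_nonneg_left hL1 (by positivity)
  have h5 : (n:ℝ) < n * (11/2 * ρ * (K + 1)) := by nlinarith
  have h6 : 1 < 11/2 * ρ * (K + 1) := by
    by_contra hcon
    push Not at hcon
    nlinarith
  nlinarith

/-- The event that two different clusters of diameter at least `r` have diameters which differ by
at most `h`. -/
def Close (n : ℕ) (r h : ℝ) (F : Finset Edge) : Prop :=
  ∃ v ∈ box n, ∃ w ∈ box n, w ∉ cluster F v ∧ r ≤ diam F v ∧ r ≤ diam F w ∧
    |diam F v - diam F w| ≤ h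

/-- The event that some cluster of diameter at least `r` has its diameter in `[x - h, x + h]`. -/
def Window (n : ℕ) (r x h : ℝ) (F : Finset Edge) : Prop :=
  ∃ v ∈ box n, r ≤ diam F v ∧ |diam F v - x| ≤ h

/-- The event that the diameter of the largest cluster lies in `[x - h, x + h]`. -/
def LargestWindow (n : ℕ) (x h : ℝ) (F : Finset Edge) : Prop :=
  ∃ v, Largest n F v ∧ |diam F v - x| ≤ h

/-- The event that some cluster, different from a cluster of largest diameter, has a diameter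
which is at most `h` smaller. -/
def RunnerUp (n : ℕ) (h : ℝ) (F : Finset Edge) : Prop :=
  ∃ v, Largest n F v ∧ ∃ w ∈ box n, w ∉ cluster F v ∧ diam F v - h ≤ diam F w

theorem largest_le {n : ℕ} {F : Finset Edge} (hF : F ⊆ edges n) {v w : ℤ × ℤ}
    (hv : Largest n F v) (hw : w ∈ box n) : diam F w ≤ diam F v := by
  obtain ⟨hvb, a, ha, b, hb, hmax⟩ := hv
  obtain ⟨⟨c, hc, d, hd, h⟩, -⟩ := diam_greatest hF hw
  rw [diam_eq hF hw, h, diam_eq hF hvb]
  have h1 : sqDist c d ≤ sqDist a b := by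
    have hF' := hF
    rw [edges_eq] at hF'
    rw [mem_cluster] at hc hd
    exact hmax c (reach_vb (by exact_mod_cast hF') hw hc) d
      (reach_vb (by exact_mod_cast hF') hw hd) ((mem_cluster _ _ _).mpr (hc.symm.trans hd))
  have h2 : ((sqDist c d : ℤ) : ℝ) ≤ ((sqDist a b : ℤ) : ℝ) := by exact_mod_cast h1
  refine le_trans (Real.sqrt_le_sqrt h2) ?_
  exact (diam_greatest hF hvb).2 ⟨a, ha, b, hb, rfl⟩

theorem part12 : ∃ C c K : ℝ, 0 < C ∧ 0 < c ∧ 0 < K ∧ ∀ (n : ℕ) (ρ ε : ℝ), 1 ≤ n → 0 < ρ →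
    ρ ≤ 1 → 0 ≤ ε →
    prob n (Close n (ρ * n) (ε * n)) ≤ C * (ρ ^ (-K) * (ε + 1 / n) ^ c) ∧
    ∀ x : ℝ, prob n (Window n (ρ * n) x (ε * n)) ≤ C * (ρ ^ (-K) * (ε + 1 / n) ^ c) := by
  obtain ⟨C, c, K, hC, hc, hK, h⟩ := main_bounds
  refine ⟨C, c, K, hC, hc, hK, ?_⟩
  intro n ρ ε hn hρ hρ1 hε
  have hn0 : (0:ℝ) < n := by exact_mod_cast hn
  set D : ℕ := ⌈ρ ^ 2 * (n:ℝ) ^ 2⌉₊ with hD
  have hD1 : ρ ^ 2 * (n:ℝ) ^ 2 ≤ D := Nat.le_ceil _
  have e1 : (ε + 1 / n) * n = ε * n + 1 := by field_simp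
  have hε1 : 1 ≤ (ε + 1 / n) * n := by rw [e1]; nlinarith
  obtain ⟨h1, h2⟩ := h n ρ (ε + 1 / n) hn hρ hρ1 hε1 D hD1
  have hDle : ∀ {F : Finset Edge} {v : ℤ × ℤ}, F ⊆ edges n → v ∈ box n → ρ * n ≤ diam F v →
      D ≤ DN n F v := by
    intro F v hF hv hd
    rw [diam_eq hF hv] at hd
    rw [hD, Nat.ceil_le]
    have k1 := pow_le_pow_left₀ (by positivity) hd 2
    rw [Real.sq_sqrt (by positivity)] at k1
    linarith
  constructor
  · refine le_trans (prob_le_of_pr ?_) h1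
    rintro F hF ⟨v, hv, w, hw, hvw, hdv, hdw, hclose⟩
    obtain ⟨v', hv', hr⟩ := ex_Can (n := n) (F := F) hv
    obtain ⟨w', hw', hr'⟩ := ex_Can (n := n) (F := F) hw
    have ev : DN n F v' = DN n F v := by unfold DN; rw [cl_eq hr]
    have ew : DN n F w' = DN n F w := by unfold DN; rw [cl_eq hr']
    refine ⟨v', w', hv', hw', ?_, ?_, ?_, ?_⟩
    · rintro rfl
      apply hvw
      rw [mem_cluster]
      exact hr.trans hr'.symm
    · rw [ev]; exact hDle hF hv hdv
    · rw [ew]; exact hDle hF hw hdw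
    · rw [ev, ew, ← diam_eq hF hv, ← diam_eq hF hw, e1]
      linarith
  · intro x
    refine le_trans (prob_le_of_pr ?_) (h2 (min x (2 * n)) (min_le_right _ _))
    rintro F hF ⟨v, hv, hdv, hclose⟩
    refine ⟨v, hv, hDle hF hv hdv, ?_⟩
    have hle := sqrt_DN_le n F v
    rw [diam_eq hF hv] at hclose
    rw [e1]
    rw [abs_le] at hclose ⊢
    rcases le_total x (2 * n) with h3 | h3
    · rw [min_eq_left h3]
      constructor <;> linarith
    · rw [min_eq_right h3]
      constructor <;> linarith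

/-- **Gaps between the diameters of the clusters of critical percolation in `Λ_n`.** -/
theorem result : ∃ C c K : ℝ, 0 < C ∧ 0 < c ∧ 0 < K ∧ ∀ (n : ℕ) (ε : ℝ), 1 ≤ n → 0 ≤ ε →
    -- two different clusters of diameter `≥ ρ n`
    (∀ ρ : ℝ, 0 < ρ → ρ ≤ 1 →
      prob n (Close n (ρ * n) (ε * n)) ≤ C * ρ ^ (-K) * (ε + 1 / n) ^ c) ∧
    -- the diameters of the clusters of diameter `≥ ρ n` are not concentrated
    (∀ ρ : ℝ, 0 < ρ → ρ ≤ 1 → ∀ x : ℝ,
      prob n (Window n (ρ * n) x (ε * n)) ≤ C * ρ ^ (-K) * (ε + 1 / n) ^ c) ∧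
    -- the largest diameter is not concentrated
    (∀ x : ℝ, prob n (LargestWindow n x (ε * n)) ≤ C * (ε + 1 / n) ^ c) ∧
    -- the gap between the largest diameter and the diameter of any other cluster
    prob n (RunnerUp n (ε * n)) ≤ C * (ε + 1 / n) ^ c ∧
    -- two rules for the choice of a cluster of largest diameter
    (∀ s₁ s₂ : Finset Edge → ℤ × ℤ, (∀ F, F ⊆ edges n → Largest n F (s₁ F)) →
      (∀ F, F ⊆ edges n → Largest n F (s₂ F)) →
      prob n (fun F => cluster F (s₁ F) ≠ cluster F (s₂ F)) ≤ C * (1 / n : ℝ) ^ c) := by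
  obtain ⟨C, c, K, hC, hc, hK, h⟩ := part12
  set s : ℝ := min (1/2) (c / (2 * K)) with hs
  have hs0 : 0 < s := lt_min (by norm_num) (by positivity)
  set c1 : ℝ := min s (c / 2) with hc1
  have hc10 : 0 < c1 := lt_min hs0 (by positivity)
  have hsle : s ≤ 1/2 := min_le_left _ _
  have hKs : K * s ≤ c / 2 := by
    have : s ≤ c / (2 * K) := min_le_right _ _
    have h2 := mul_le_mul_of_nonneg_left this hK.le
    have h3 : K * (c / (2 * K)) = c / 2 := by field_simp
    linarith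
  set C1 : ℝ := 6 + C + 5 with hC1
  have hC10 : 0 < C1 := by positivity
  have hC1le : C ≤ C1 := by linarith
  -- the first two parts with the smaller exponent
  have hpow : ∀ (n : ℕ) (ε ρ : ℝ), 1 ≤ n → 0 ≤ ε → 0 < ρ → ρ ≤ 1 → ∀ p : ℝ, p ≤ 1 →
      p ≤ C * (ρ ^ (-K) * (ε + 1 / n) ^ c) → p ≤ C1 * ρ ^ (-K) * (ε + 1 / n) ^ c1 := by
    intro n ε ρ hn hε hρ hρ1 p hp hp2
    have hn0 : (0:ℝ) < n := by exact_mod_cast hn
    have hx : 0 < ε + 1 / (n:ℝ) := by positivity
    have hρK : 1 ≤ ρ ^ (-K) := Real.one_le_rpow_of_pos_of_le_one_of_nonpos hρ hρ1 (by linarith)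
    rcases le_total (ε + 1 / (n:ℝ)) 1 with h1 | h1
    · have h2 : (ε + 1 / (n:ℝ)) ^ c ≤ (ε + 1 / n) ^ c1 := by
        apply Real.rpow_le_rpow_of_exponent_ge hx h1
        have : c1 ≤ c / 2 := min_le_right _ _
        linarith
      have h3 : C * (ρ ^ (-K) * (ε + 1 / n) ^ c) ≤ C1 * (ρ ^ (-K) * (ε + 1 / n) ^ c1) := by
        apply mul_le_mul hC1le _ (by positivity) hC10.le
        exact mul_le_mul_of_nonneg_left h2 (by positivity)
      linarith
    · have h2 : 1 ≤ (ε + 1 / (n:ℝ)) ^ c1 := Real.one_le_rpow h1 hc10.le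
      have h3 : 1 * 1 * 1 ≤ C1 * ρ ^ (-K) * (ε + 1 / n) ^ c1 := by
        apply mul_le_mul _ h2 (by norm_num) (by positivity)
        apply mul_le_mul _ hρK (by norm_num) (by positivity)
        linarith
      linarith
  -- the largest cluster
  have key : ∀ (n : ℕ) (ε : ℝ), 1 ≤ n → 0 ≤ ε → ∀ A : Finset Edge → Prop,
      (∀ ρ : ℝ, 0 < ρ → ρ ≤ 1/5 → 1 ≤ ρ * n → ε * n ≤ ρ * n / 5 →
        prob n A ≤ 6 * ρ + C * (ρ ^ (-K) * (ε + 1 / n) ^ c)) →
      prob n A ≤ C1 * (ε + 1 / n) ^ c1 := by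
    intro n ε hn hε A hA
    have hn0 : (0:ℝ) < n := by exact_mod_cast hn
    set x : ℝ := ε + 1 / (n:ℝ) with hx
    have hx0 : 0 < x := by positivity
    rcases le_total 1 x with h1 | h1
    · have h2 : 1 ≤ x ^ c1 := Real.one_le_rpow h1 hc10.le
      have h3 : 1 * 1 ≤ C1 * x ^ c1 := mul_le_mul (by linarith) h2 (by norm_num) hC10.le
      linarith [prob_le_one (n := n) (A := A)]
    · set ρ : ℝ := x ^ s with hρ
      have hρ0 : 0 < ρ := by positivity
      have hρc : ρ ≤ x ^ c1 :=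
        Real.rpow_le_rpow_of_exponent_ge hx0 h1 (min_le_left _ _)
      rcases le_total ρ (1/5) with h2 | h2
      · have h3 : ρ ^ (-K) * x ^ c ≤ x ^ c1 := by
          rw [hρ, ← Real.rpow_mul hx0.le, ← Real.rpow_add hx0]
          apply Real.rpow_le_rpow_of_exponent_ge hx0 h1
          have : c1 ≤ c / 2 := min_le_right _ _
          nlinarith
        have hxx : x ≤ ρ ^ 2 := by
          have e : ρ ^ 2 = x ^ (s * 2) := by
            rw [hρ, ← Real.rpow_natCast, ← Real.rpow_mul hx0.le]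
            norm_num
          rw [e]
          calc x = x ^ (1:ℝ) := (Real.rpow_one x).symm
            _ ≤ x ^ (s * 2) := by
                apply Real.rpow_le_rpow_of_exponent_ge hx0 h1
                linarith
        have hxρ : x ≤ ρ / 5 := by nlinarith
        have h4 : 1 / (n:ℝ) ≤ x := by rw [hx]; linarith
        have h5 : 1 ≤ ρ * n := by
          have : 1 / (n:ℝ) ≤ ρ := by linarith
          rw [div_le_iff₀ hn0] at this
          exact this
        have h6 : ε * n ≤ ρ * n / 5 := by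
          have h7 : 0 < 1 / (n:ℝ) := by positivity
          have : ε ≤ ρ / 5 := by linarith
          nlinarith
        have h7 := hA ρ hρ0 h2 h5 h6
        have h8 : 6 * ρ + C * (ρ ^ (-K) * x ^ c) ≤ 6 * x ^ c1 + C * x ^ c1 := by
          have := mul_le_mul_of_nonneg_left h3 hC.le
          linarith
        have h9 : 0 < x ^ c1 := by positivity
        nlinarith
      · have h3 : 1 ≤ C1 * x ^ c1 := by
          have h4 : (1/5:ℝ) ≤ x ^ c1 := h2.trans hρc
          nlinarith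
        exact (prob_le_one).trans h3
  have part4 : ∀ (n : ℕ) (ε : ℝ), 1 ≤ n → 0 ≤ ε →
      prob n (RunnerUp n (ε * n)) ≤ C1 * (ε + 1 / n) ^ c1 := by
    intro n ε hn hε
    have hn0 : (0:ℝ) < n := by exact_mod_cast hn
    apply key n ε hn hε
    intro ρ hρ hρ5 hρn hερ
    refine le_trans ?_ (add_le_add (small_largest hn hρ hρ5 hρn)
      (h n ρ ε hn hρ (by linarith) hε).1)
    refine le_trans (prob_mono ?_) prob_or
    rintro F hF ⟨v, hv, w, hw, hvw, hd⟩
    by_cases hsmall : diam F v < 7/5 * (ρ * n)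
    · exact Or.inl ⟨v, hv, hsmall⟩
    · push Not at hsmall
      right
      have h1 := largest_le hF hv hw
      have h2 : 0 < ρ * n := by positivity
      refine ⟨v, hv.1, w, hw, hvw, by linarith, by linarith, ?_⟩
      rw [abs_le]
      constructor <;> linarith
  refine ⟨C1, c1, K, hC10, hc10, hK, ?_⟩
  intro n ε hn hε
  have hn0 : (0:ℝ) < n := by exact_mod_cast hn
  refine ⟨?_, ?_, ?_, part4 n ε hn hε, ?_⟩
  · intro ρ hρ hρ1
    exact hpow n ε ρ hn hε hρ hρ1 _ prob_le_one (h n ρ ε hn hρ hρ1 hε).1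
  · intro ρ hρ hρ1 x
    exact hpow n ε ρ hn hε hρ hρ1 _ prob_le_one ((h n ρ ε hn hρ hρ1 hε).2 x)
  · intro x
    apply key n ε hn hε
    intro ρ hρ hρ5 hρn hερ
    refine le_trans ?_ (add_le_add (small_largest hn hρ hρ5 hρn)
      ((h n ρ ε hn hρ (by linarith) hε).2 x))
    refine le_trans (prob_mono ?_) prob_or
    rintro F hF ⟨v, hv, hd⟩
    by_cases hsmall : diam F v < 7/5 * (ρ * n)
    · exact Or.inl ⟨v, hv, hsmall⟩
    · push Not at hsmall
      have h2 : 0 < ρ * n := by positivity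
      exact Or.inr ⟨v, hv.1, by linarith, hd⟩
  · intro s₁ s₂ h1 h2
    have h3 := part4 n 0 hn le_rfl
    rw [zero_add] at h3
    refine le_trans (prob_mono ?_) h3
    intro F hF hne
    refine ⟨s₁ F, h1 F hF, s₂ F, (h2 F hF).1, ?_, ?_⟩
    · intro hmem
      apply hne
      rw [mem_cluster] at hmem
      ext x
      rw [mem_cluster, mem_cluster]
      exact ⟨fun h => hmem.symm.trans h, fun h => hmem.trans h⟩
    · have := largest_le hF (h2 F hF) (h1 F hF).1
      linarith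

end Pool.Agent.Results.MP_6bd702_pr.DiameterGaps
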