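import Pool.Agent.H950.AD.Adv
import Pool.Agent.H950.AD.Win

/-!
# The critical window of the outer perimeter of the largest cluster in `Λ_n`

Bond percolation in `Λ_n = {0, …, n}²`, the closed lattice path which traces the outer boundary
`∂C` of the cluster `C` of largest diameter, scaled by `1 / n`, and the distance `d` of paths up to
reparametrisation.

* Stability: critical percolation (`F` is the set of open edges) with an independent random set
  `Q` of defects, of density `τ`; the states of the defects are chosen by an adversary who knows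
  everything. Up to an event of probability at most `C (τ n ^ (3/4) r ^ (-5/4) + (r + 1/n) ^ c)`,
  the tracing paths of the largest clusters of all these configurations are within `r` of the ones
  of `F`.
* The laws of `∂_n` at `p` and at `1/2` are within `r`, up to
  `C (|p - 1/2| n ^ (3/4) r ^ (-5/4) + (r + 1/n) ^ c)`.
* Sharpness: for `p > 1/2` the perimeter is within `r` of the boundary of the unit square and for
  `p < 1/2` all clusters of `Λ_n` have diameter at most `r n`, up to an event of probability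
  at most `C exp (-c n |p - 1/2| ^ (4/3))`.  An adversary has both choices, up to an event of
  probability at most `C exp (-c n τ ^ (4/3))`.

The model (`box`, `edges`, `cluster`, `Largest`) is the one of
`Pool.Graph.R_seed8.H342R2.Per.Plain`, the tracing path is `IsTrace` of
`Pool.Graph.R_seed8.H342R3.Tig.Defs`, the distance is `cdist` of
`Pool.Graph.R_seed8.H342R3.Lim.Defs`; `Ex` and `Pr` are in `Pool.Graph.R_seed8.H974R2.Basic`.
-/

set_option autoImplicit false

namespace Pool.Agent.Results.MP_6bd702_pr.PerimeterWindow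

open H342P.Plain H974
open H342T (IsTrace)
open H342L (Curve cdist)
open Pool.Agent.Results.MP_6bd702_pr.DiameterGaps (diam)

/-- Probability of an event for bond percolation in `Λ_n` with parameter `p`. -/
noncomputable def probp (p : ℝ) (n : ℕ) (A : Finset Edge → Prop) : ℝ :=
  Pr (fun _ => p) (edges n) A

/-- The probability of an event which depends on a uniformly random set `F` of edges of `Λ_n` (the
open edges of critical percolation) and on an independent random set `Q` of edges (the defects),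
which contains each edge with probability `τ`, independently. -/
noncomputable def prob2 (τ : ℝ) (n : ℕ) (A : Finset Edge → Finset Edge → Prop) : ℝ :=
  Ex (fun _ => 1 / 2) (edges n) (fun F => Pr (fun _ => τ) (edges n) (A F))

/-- `G` is admissible: it agrees with `F` off the defects. -/
def Adm (F Q G : Finset Edge) : Prop := ∀ e, e ∉ Q → (e ∈ G ↔ e ∈ F)

/-- The tracing paths of the cluster of `v` for the open edges `F` and the ones of the cluster of
`w` for the open edges `G` are within `r` of each other (there is one path for each starting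
point). -/
def Near (n : ℕ) (r : ℝ) (F : Finset Edge) (v : ℤ × ℤ) (G : Finset Edge) (w : ℤ × ℤ) : Prop :=
  (∀ c, IsTrace n F v c → ∃ c', IsTrace n G w c' ∧ cdist c.path c'.path ≤ r) ∧
  (∀ c, IsTrace n G w c → ∃ c', IsTrace n F v c' ∧ cdist c.path c'.path ≤ r)

/-- Some tracing path of a cluster of largest diameter belongs to `A`. -/
def Hit (n : ℕ) (A : Set Curve) (F : Finset Edge) : Prop :=
  ∃ v, Largest n F v ∧ ∃ c, IsTrace n F v c ∧ c ∈ A

/-- The curves within `r` of `A`. -/
def thick (r : ℝ) (A : Set Curve) : Set Curve := {c | ∃ c' ∈ A, cdist c.path c'.path ≤ r}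

/-- The tracing paths of the clusters of largest diameter are within `r` of the boundary of the
unit square, which is the tracing path if all edges of `Λ_n` are open. -/
def NearSquare (n : ℕ) (r : ℝ) (F : Finset Edge) : Prop :=
  ∀ v, Largest n F v → Near n r F v (edges n) v

/-- All clusters have diameter at most `r n`. -/
def AllSmall (n : ℕ) (r : ℝ) (F : Finset Edge) : Prop := ∀ v ∈ box n, diam F v ≤ r * n

theorem prob2_eq (τ : ℝ) (n : ℕ) (A : Finset Edge → Finset Edge → Prop) :
    prob2 τ n A = Q291.AD.P2 τ (H974.RE 0 n 0 n) A := by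
  unfold prob2
  rw [edges_eq]
  rfl

theorem prob2_union (τ : ℝ) (n : ℕ) (B : Finset Edge → Prop) :
    prob2 τ n (fun F Q => B (F ∪ Q)) = probp ((1 + τ) / 2) n B := by
  rw [prob2_eq, Q291.AD.P2_union]
  unfold probp
  rw [edges_eq]

theorem prob2_sdiff (τ : ℝ) (n : ℕ) (B : Finset Edge → Prop) :
    prob2 τ n (fun F Q => B (F \ Q)) = probp ((1 - τ) / 2) n B := by
  have h1 := Q291.AD.P2_compl τ (edges n) (fun F Q => B (F \ Q))
  have h2 : Q291.AD.P2 τ (edges n) (fun F Q => B ((edges n \ F) \ Q)) =
      Q291.AD.P2 τ (edges n) (fun F Q => B (edges n \ (F ∪ Q))) := by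
    congr 1
    funext F Q
    congr 1
    ext e
    simp only [Finset.mem_sdiff, Finset.mem_union]
    tauto
  have h3 := Q291.AD.P2_union τ (edges n) (fun G => B (edges n \ G))
  have h4 : Pr (fun _ : Edge => (1 + τ) / 2) (edges n) (fun G => B (edges n \ G)) =
      Pr (fun _ : Edge => (1 - τ) / 2) (edges n) B := by
    have h5 := Pr_compl (fun _ : Edge => (1 + τ) / 2) (edges n) B
    have e : (fun _ : Edge => (1:ℝ) - (1 + τ) / 2) = fun _ => (1 - τ) / 2 := by
      funext; ring
    rw [e] at h5
    exact h5.symm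
  show Q291.AD.P2 τ (edges n) (fun F Q => B (F \ Q)) = _
  rw [← h1, h2, h3, h4]
  rfl

theorem prob2_first (τ : ℝ) (n : ℕ) (B : Finset Edge → Prop) :
    prob2 τ n (fun F _ => B F) = probp (1 / 2) n B := by
  rw [prob2_eq, Q291.AD.P2_open]
  unfold probp
  rw [edges_eq]

theorem prob2_mono {τ : ℝ} (h0 : 0 ≤ τ) (h1 : τ ≤ 1) {n : ℕ}
    {A B : Finset Edge → Finset Edge → Prop}
    (h : ∀ F Q, F ⊆ edges n → Q ⊆ edges n → A F Q → B F Q) : prob2 τ n A ≤ prob2 τ n B :=
  Q291.AD.P2_mono h0 h1 h

theorem prob2_or {τ : ℝ} (h0 : 0 ≤ τ) (h1 : τ ≤ 1) (n : ℕ)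
    (A B : Finset Edge → Finset Edge → Prop) :
    prob2 τ n (fun F Q => A F Q ∨ B F Q) ≤ prob2 τ n A + prob2 τ n B :=
  Q291.AD.P2_or h0 h1 _ _ _

/-- Some admissible configuration has a tracing path of a largest cluster which is not within `r`
of the ones of `F`. -/
def Apart (n : ℕ) (r : ℝ) (F Q : Finset Edge) : Prop :=
  ∃ G v w, Adm F Q G ∧ Largest n F v ∧ Largest n G w ∧ ¬ Near n r F v G w

theorem hit_thick {n : ℕ} {r : ℝ} {F G : Finset Edge} {A : Set Curve}
    (h : ∀ v w, Largest n F v → Largest n G w → Near n r F v G w) :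
    (Hit n A G → Hit n (thick r A) F) ∧ (Hit n A F → Hit n (thick r A) G) := by
  constructor
  · rintro ⟨w, hw, c, hc, hA⟩
    obtain ⟨v, hv⟩ := exists_largest n F
    obtain ⟨c', h1, h2⟩ := (h v w hv hw).2 c hc
    exact ⟨v, hv, c', h1, c, hA, by rw [H342L.cdist_comm]; exact h2⟩
  · rintro ⟨v, hv, c, hc, hA⟩
    obtain ⟨w, hw⟩ := exists_largest n G
    obtain ⟨c', h1, h2⟩ := (h v w hv hw).1 c hc
    exact ⟨w, hw, c', h1, c, hA, by rw [H342L.cdist_comm]; exact h2⟩

/-- comparison of the laws for a coupling -/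
theorem compare {τ : ℝ} (h0 : 0 ≤ τ) (h1 : τ ≤ 1) (n : ℕ) (r : ℝ) (A : Set Curve)
    (g : Finset Edge → Finset Edge → Finset Edge) (hg : ∀ F Q, Adm F Q (g F Q)) :
    prob2 τ n (fun F Q => Hit n A (g F Q)) ≤
      prob2 τ n (fun F _ => Hit n (thick r A) F) + prob2 τ n (Apart n r) ∧
    prob2 τ n (fun F _ => Hit n A F) ≤
      prob2 τ n (fun F Q => Hit n (thick r A) (g F Q)) + prob2 τ n (Apart n r) := by
  have key : ∀ F Q, ¬ Apart n r F Q → (Hit n A (g F Q) → Hit n (thick r A) F) ∧
      (Hit n A F → Hit n (thick r A) (g F Q)) := by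
    intro F Q h
    apply hit_thick
    intro v w hv hw
    by_contra hcon
    exact h ⟨g F Q, v, w, hg F Q, hv, hw, hcon⟩
  constructor
  · refine le_trans (prob2_mono h0 h1 ?_) (prob2_or h0 h1 n _ _)
    intro F Q _ _ h
    by_cases hA : Apart n r F Q
    · exact Or.inr hA
    · exact Or.inl ((key F Q hA).1 h)
  · refine le_trans (prob2_mono h0 h1 ?_) (prob2_or h0 h1 n _ _)
    intro F Q _ _ h
    by_cases hA : Apart n r F Q
    · exact Or.inr hA
    · exact Or.inl ((key F Q hA).2 h)

/-- **The critical window of the outer perimeter of the largest cluster.** -/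
theorem result :
    (∃ C c : ℝ, 0 < C ∧ 0 < c ∧ ∀ (n : ℕ) (r : ℝ), 1 ≤ n → 0 < r →
      -- the adversary cannot move the perimeter
      (∀ τ : ℝ, 0 ≤ τ → τ ≤ 1 → prob2 τ n (Apart n r) ≤
        C * (τ * (n : ℝ) ^ (3/4 : ℝ) * r ^ (-(5/4) : ℝ) + (r + 1 / n) ^ c)) ∧
      -- the laws of the perimeter at `p` and at `1/2`
      (∀ (p : ℝ) (A : Set Curve), 0 ≤ p → p ≤ 1 →
        probp p n (Hit n A) ≤ probp (1/2) n (Hit n (thick r A)) +
          C * (|p - 1/2| * (n : ℝ) ^ (3/4 : ℝ) * r ^ (-(5/4) : ℝ) + (r + 1 / n) ^ c) ∧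
        probp (1/2) n (Hit n A) ≤ probp p n (Hit n (thick r A)) +
          C * (|p - 1/2| * (n : ℝ) ^ (3/4 : ℝ) * r ^ (-(5/4) : ℝ) + (r + 1 / n) ^ c))) ∧
    (∀ r : ℝ, 0 < r → ∃ C c : ℝ, 0 < C ∧ 0 < c ∧ ∀ n : ℕ,
      -- outside of the window
      (∀ p : ℝ, 1/2 ≤ p → p ≤ 1 →
        probp p n (fun F => ¬ NearSquare n r F) ≤ C * Real.exp (-(c * (n * (p - 1/2) ^ (4/3 : ℝ)))) ∧
        probp (1 - p) n (fun F => ¬ AllSmall n r F) ≤
          C * Real.exp (-(c * (n * (p - 1/2) ^ (4/3 : ℝ))))) ∧
      -- the adversary decides everything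
      (∀ τ : ℝ, 0 ≤ τ → τ ≤ 1 → prob2 τ n (fun F Q => ¬ ∃ G G', Adm F Q G ∧ Adm F Q G' ∧
        NearSquare n r G ∧ AllSmall n r G') ≤ C * Real.exp (-(c * (n * τ ^ (4/3 : ℝ)))))) := by
  constructor
  · obtain ⟨C, c, hC, hc, h⟩ := Pool.Agent.H950.AD.adv_bound
    refine ⟨2 * C, c, by positivity, hc, ?_⟩
    intro n r hn hr
    have hn0 : (0:ℝ) < n := by exact_mod_cast hn
    have hadv : ∀ τ : ℝ, 0 ≤ τ → τ ≤ 1 → prob2 τ n (Apart n r) ≤
        C * (τ * (n : ℝ) ^ (3/4 : ℝ) * r ^ (-(5/4) : ℝ) + (r + 1 / n) ^ c) := by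
      intro τ h0 h1
      rw [prob2_eq]
      exact h n τ r hn h0 h1 hr
    have hpos : ∀ t : ℝ, 0 ≤ t → 0 ≤ t * (n : ℝ) ^ (3/4 : ℝ) * r ^ (-(5/4) : ℝ) := by
      intro t ht
      positivity
    have hpos2 : 0 ≤ (r + 1 / (n:ℝ)) ^ c := by positivity
    refine ⟨?_, ?_⟩
    · intro τ h0 h1
      refine (hadv τ h0 h1).trans ?_
      have := hpos τ h0
      nlinarith
    · intro p A hp0 hp1
      rcases le_total (1/2) p with hp | hp
      · obtain ⟨τ, hτ⟩ : ∃ τ, τ = 2 * p - 1 := ⟨_, rfl⟩
        have h0 : 0 ≤ τ := by linarith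
        have h1 : τ ≤ 1 := by linarith
        have e1 : (1 + τ) / 2 = p := by rw [hτ]; ring
        have e2 : |p - 1/2| = τ / 2 := by rw [abs_of_nonneg (by linarith), hτ]; ring
        obtain ⟨k1, k2⟩ := compare h0 h1 n r A (fun F Q => F ∪ Q) (by
          intro F Q e he
          rw [Finset.mem_union]
          tauto)
        rw [prob2_first, prob2_union, e1] at k1 k2
        have k3 := hadv τ h0 h1
        have k4 := hpos τ h0
        rw [e2]
        constructor
        · refine k1.trans (add_le_add le_rfl (k3.trans ?_))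
          nlinarith
        · refine k2.trans (add_le_add le_rfl (k3.trans ?_))
          nlinarith
      · obtain ⟨τ, hτ⟩ : ∃ τ, τ = 1 - 2 * p := ⟨_, rfl⟩
        have h0 : 0 ≤ τ := by linarith
        have h1 : τ ≤ 1 := by linarith
        have e1 : (1 - τ) / 2 = p := by rw [hτ]; ring
        have e2 : |p - 1/2| = τ / 2 := by rw [abs_of_nonpos (by linarith), hτ]; ring
        obtain ⟨k1, k2⟩ := compare h0 h1 n r A (fun F Q => F \ Q) (by
          intro F Q e he
          rw [Finset.mem_sdiff]
          tauto)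
        rw [prob2_first, prob2_sdiff, e1] at k1 k2
        have k3 := hadv τ h0 h1
        have k4 := hpos τ h0
        rw [e2]
        constructor
        · refine k1.trans (add_le_add le_rfl (k3.trans ?_))
          nlinarith
        · refine k2.trans (add_le_add le_rfl (k3.trans ?_))
          nlinarith
  · intro r hr
    obtain ⟨C, c, hC, hc, h⟩ := Pool.Agent.H950.AD.win_all hr
    obtain ⟨b, hb⟩ : ∃ b : ℝ, b = (1/2 : ℝ) ^ (4/3 : ℝ) := ⟨_, rfl⟩
    have hb0 : 0 < b := by rw [hb]; positivity
    have hb1 : b ≤ 1 := by rw [hb]; exact Real.rpow_le_one (by norm_num) (by norm_num) (by norm_num)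
    refine ⟨2 * C, c * b, by positivity, by positivity, ?_⟩
    intro n
    have hout : ∀ p : ℝ, 1/2 ≤ p → p ≤ 1 →
        probp p n (fun F => ¬ NearSquare n r F) ≤
          C * Real.exp (-(c * (n * (p - 1/2) ^ (4/3 : ℝ)))) ∧
        probp (1 - p) n (fun F => ¬ AllSmall n r F) ≤
          C * Real.exp (-(c * (n * (p - 1/2) ^ (4/3 : ℝ)))) := by
      intro p hp hp1
      obtain ⟨k1, k2⟩ := h n p hp hp1
      constructor
      · refine le_trans (le_of_eq ?_) k1
        unfold probp
        rw [edges_eq]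
        congr 1
        funext F
        apply propext
        unfold NearSquare
        rw [edges_eq]
        push Not
        exact Iff.rfl
      · refine le_trans (le_of_eq ?_) k2
        unfold probp
        rw [edges_eq]
        congr 1
        funext F
        apply propext
        unfold AllSmall
        push Not
        exact Iff.rfl
    have hle : ∀ y : ℝ, 0 ≤ y → C * Real.exp (-(c * y)) ≤ 2 * C * Real.exp (-(c * b * y)) := by
      intro y hy
      have e1 : Real.exp (-(c * y)) ≤ Real.exp (-(c * b * y)) := by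
        apply Real.exp_le_exp.2
        have : c * b * y ≤ c * y := by
          have := mul_le_mul_of_nonneg_left hb1 (mul_nonneg hc.le hy)
          nlinarith
        linarith
      have e2 := Real.exp_pos (-(c * b * y))
      nlinarith
    refine ⟨?_, ?_⟩
    · intro p hp hp1
      obtain ⟨k1, k2⟩ := hout p hp hp1
      have hy : 0 ≤ (n:ℝ) * (p - 1/2) ^ (4/3 : ℝ) :=
        mul_nonneg (Nat.cast_nonneg n) (Real.rpow_nonneg (by linarith) _)
      exact ⟨k1.trans (hle _ hy), k2.trans (hle _ hy)⟩
    · intro τ h0 h1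
      obtain ⟨k1, k2⟩ := hout ((1 + τ) / 2) (by linarith) (by linarith)
      have e1 : 1 - (1 + τ) / 2 = (1 - τ) / 2 := by ring
      have e2 : (1 + τ) / 2 - 1/2 = 1/2 * τ := by ring
      rw [e1] at k2
      rw [e2, Real.mul_rpow (by norm_num) h0, ← hb] at k1 k2
      rw [← prob2_union] at k1
      rw [← prob2_sdiff] at k2
      have e3 : c * ((n:ℝ) * (b * τ ^ (4/3 : ℝ))) = c * b * (n * τ ^ (4/3 : ℝ)) := by ring
      rw [e3] at k1 k2
      have e4 : 2 * C * Real.exp (-(c * b * (n * τ ^ (4/3 : ℝ)))) =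
        C * Real.exp (-(c * b * (n * τ ^ (4/3 : ℝ)))) +
          C * Real.exp (-(c * b * (n * τ ^ (4/3 : ℝ)))) := by ring
      rw [e4]
      refine le_trans ?_ (add_le_add k1 k2)
      refine le_trans (prob2_mono h0 h1 ?_) (prob2_or h0 h1 n _ _)
      intro F Q _ _ hno
      by_contra hcon
      push Not at hcon
      apply hno
      refine ⟨F ∪ Q, F \ Q, ?_, ?_, hcon.1, hcon.2⟩
      · intro e he
        rw [Finset.mem_union]
        tauto
      · intro e he
        rw [Finset.mem_sdiff]
        tauto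

end Pool.Agent.Results.MP_6bd702_pr.PerimeterWindow
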