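import Pool.Agent.H950.SV.Slow

/-!
# Slow variation of the law of the outer perimeter of the largest cluster in `Λ_n`

Critical bond percolation in `Λ_n = {0, …, n}²`, the closed lattice path which traces the outer
boundary of the cluster of largest diameter, scaled by `1 / n`, and the distance `d` of paths up to
reparametrisation.  For `n ≤ m` let `e n m = C ((m - n + 1) / n) ^ c`.

* Coupling: for critical percolation in `Λ_m`, the tracing paths of the largest clusters of `Λ_m`
  and of `Λ_n` are within `e n m` of each other, up to an event of probability at most `e n m`.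
* The Lévy-Prokhorov distance of the laws of `∂_n` and of `∂_m` is at most `e n m`, and the
  expectations of a Lipschitz function of the closed path differ by at most `3 (e n m)`, for all
  rules for ties and starting points.
* Hence the laws of `∂_n` converge as soon as they converge along some sequence of sizes whose
  successive ratios tend to `1`.
* The limit points of the expectation of each Lipschitz function form an interval.

The model (`box`, `edges`, `cluster`, `Largest`, `prob`) is the one of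
`Pool.Graph.R_seed8.H342R2.Per.Plain`, the tracing path is `IsTrace` of
`Pool.Graph.R_seed8.H342R3.Tig.Defs`, the distance is `cdist` of
`Pool.Graph.R_seed8.H342R3.Lim.Defs`.
-/

set_option autoImplicit false

namespace Pool.Agent.Results.MP_6bd702_pr.SlowVariation

open H342P.Plain H974 Filter Topology
open H342T (IsTrace)
open H342L (Curve cdist)

/-- The tracing paths of the cluster of `v` for the open edges `F`, scaled by `1 / m`, and the ones
of the cluster of `w` for the open edges `G`, scaled by `1 / n`, are within `r` of each other (there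
is one path for each starting point). -/
def Near (r : ℝ) (m : ℕ) (F : Finset Edge) (v : ℤ × ℤ) (n : ℕ) (G : Finset Edge) (w : ℤ × ℤ) :
    Prop :=
  (∀ c, IsTrace m F v c → ∃ c', IsTrace n G w c' ∧ cdist c.path c'.path ≤ r) ∧
  (∀ c, IsTrace n G w c → ∃ c', IsTrace m F v c' ∧ cdist c.path c'.path ≤ r)

/-- Some tracing path of a cluster of largest diameter belongs to `A`. -/
def Hit (n : ℕ) (A : Set Curve) (F : Finset Edge) : Prop :=
  ∃ v, Largest n F v ∧ ∃ c, IsTrace n F v c ∧ c ∈ A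

/-- The curves within `r` of `A`. -/
def thick (r : ℝ) (A : Set Curve) : Set Curve := {c | ∃ c' ∈ A, cdist c.path c'.path ≤ r}

/-- The Lévy-Prokhorov distance of the laws of `∂_n` and of `∂_m` is at most `r`. -/
def LPClose (r : ℝ) (n m : ℕ) : Prop := ∀ A : Set Curve,
  prob n (Hit n A) ≤ prob m (Hit m (thick r A)) + r ∧
  prob m (Hit m A) ≤ prob n (Hit n (thick r A)) + r

/-- A rule which chooses a cluster of largest diameter and a starting point of its tracing path. -/
def Rule (T : ℕ → Finset Edge → Curve) : Prop :=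
  ∀ n F, F ⊆ edges n → ∃ v, Largest n F v ∧ IsTrace n F v (T n F)

/-- A bounded Lipschitz function of the closed path (it does not depend on the starting point). -/
structure Obs (φ : Curve → ℝ) : Prop where
  bdd : ∀ c, |φ c| ≤ 1
  lip : ∀ c c', |φ c - φ c'| ≤ cdist c.path c'.path
  base : ∀ n F v c c', IsTrace n F v c → IsTrace n F v c' → φ c = φ c'

/-- The expectation of `φ (∂_n)` for critical percolation. -/
noncomputable def mean (T : ℕ → Finset Edge → Curve) (φ : Curve → ℝ) (n : ℕ) : ℝ :=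
  (∑ F ∈ (edges n).powerset, φ (T n F)) / 2 ^ (edges n).card

/-- The error term. -/
noncomputable def err (C c : ℝ) (n m : ℕ) : ℝ := C * (((m : ℝ) - n + 1) / n) ^ c

theorem ok2 : Ok (fun _ : Edge => (1/2 : ℝ)) := okq (by norm_num) (by norm_num)

theorem Ex_half (S : Finset Edge) (f : Finset Edge → ℝ) :
    Ex (fun _ => (1/2:ℝ)) S f = (∑ F ∈ S.powerset, f F) / 2 ^ S.card := by
  classical
  unfold Ex
  rw [Finset.sum_div]
  refine Finset.sum_congr rfl fun F hF => ?_
  rw [Finset.mem_powerset] at hF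
  have h1 : (∏ _e ∈ F, (1/2:ℝ)) * (∏ _e ∈ S \ F, (1 - (1/2:ℝ))) = (1/2:ℝ) ^ S.card := by
    rw [Finset.prod_const, Finset.prod_const]
    have h2 : (1:ℝ) - 1/2 = 1/2 := by norm_num
    rw [h2, ← pow_add, Finset.card_sdiff_of_subset hF]
    have h3 := Finset.card_le_card hF
    congr 1
    omega
  rw [h1, one_div, inv_pow]
  ring

theorem mean_eq (T : ℕ → Finset Edge → Curve) (φ : Curve → ℝ) (n : ℕ) :
    mean T φ n = Ex (fun _ => (1/2:ℝ)) (edges n) (fun F => φ (T n F)) := by
  rw [Ex_half]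
  rfl

theorem prob_half (n : ℕ) (A : Finset Edge → Prop) :
    prob n A = Pr (fun _ => (1/2:ℝ)) (edges n) A := by
  rw [prob_eq, edges_eq]

theorem edges_mono {n m : ℕ} (h : n ≤ m) : edges n ⊆ edges m := by
  rw [edges_eq, edges_eq]
  have : (n : ℤ) ≤ m := by exact_mod_cast h
  exact RE_subset le_rfl this le_rfl this

/-- The law in a smaller box is the law of the restriction. -/
theorem prob_restrict {n m : ℕ} (h : n ≤ m) (A : Finset Edge → Prop) :
    prob n A = prob m (fun F => A (F ∩ edges n)) := by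
  rw [prob_half, prob_half]
  have h1 : Pr (fun _ => (1/2:ℝ)) (edges m) (fun F => A (F ∩ edges n)) =
      Pr (fun _ => (1/2:ℝ)) (edges n) (fun F => A (F ∩ edges n)) := by
    apply Pr_local (edges_mono h)
    intro F _
    rw [Finset.inter_assoc, Finset.inter_self]
  rw [h1]
  apply Pr_congr
  intro F hF
  rw [Finset.inter_eq_left.2 hF]

theorem mean_restrict {n m : ℕ} (h : n ≤ m) (T : ℕ → Finset Edge → Curve) (φ : Curve → ℝ) :
    mean T φ n = Ex (fun _ => (1/2:ℝ)) (edges m) (fun F => φ (T n (F ∩ edges n))) := by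
  rw [mean_eq]
  have h1 : Ex (fun _ => (1/2:ℝ)) (edges m) (fun F => φ (T n (F ∩ edges n))) =
      Ex (fun _ => (1/2:ℝ)) (edges n) (fun F => φ (T n (F ∩ edges n))) := by
    apply Ex_local (edges_mono h)
    intro F _
    rw [Finset.inter_assoc, Finset.inter_self]
  rw [h1]
  apply Ex_congr
  intro F hF
  rw [Finset.inter_eq_left.2 hF]

/-- The tracing paths of the largest clusters of `Λ_m` and of `Λ_n` are not close. -/
def Apart (r : ℝ) (n m : ℕ) (F : Finset Edge) : Prop :=
  ∃ v w, Largest m F v ∧ Largest n (F ∩ edges n) w ∧ ¬ Near r m F v n (F ∩ edges n) w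

theorem hit_thick {n m : ℕ} {r : ℝ} {F G : Finset Edge} {A : Set Curve}
    (h : ∀ v w, Largest m F v → Largest n G w → Near r m F v n G w) :
    (Hit n A G → Hit m (thick r A) F) ∧ (Hit m A F → Hit n (thick r A) G) := by
  constructor
  · rintro ⟨w, hw, c, hc, hA⟩
    obtain ⟨v, hv⟩ := exists_largest m F
    obtain ⟨c', h1, h2⟩ := (h v w hv hw).2 c hc
    exact ⟨v, hv, c', h1, c, hA, by rw [H342L.cdist_comm]; exact h2⟩
  · rintro ⟨v, hv, c, hc, hA⟩
    obtain ⟨w, hw⟩ := exists_largest n G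
    obtain ⟨c', h1, h2⟩ := (h v w hv hw).1 c hc
    exact ⟨w, hw, c', h1, c, hA, by rw [H342L.cdist_comm]; exact h2⟩

theorem lp_of {n m : ℕ} (h : n ≤ m) {r : ℝ} (hr : prob m (Apart r n m) ≤ r) : LPClose r n m := by
  intro A
  have key : ∀ F, ¬ Apart r n m F → (Hit n A (F ∩ edges n) → Hit m (thick r A) F) ∧
      (Hit m A F → Hit n (thick r A) (F ∩ edges n)) := by
    intro F hF
    apply hit_thick
    intro v w hv hw
    by_contra hcon
    exact hF ⟨v, w, hv, hw, hcon⟩
  rw [prob_half] at hr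
  constructor
  · rw [prob_restrict h, prob_half, prob_half]
    refine le_trans ?_ (add_le_add le_rfl hr)
    refine le_trans (Pr_mono ok2 ?_) (Pr_or_le ok2 _ _ _)
    intro F _ hA
    by_cases hF : Apart r n m F
    · exact Or.inr hF
    · exact Or.inl ((key F hF).1 hA)
  · rw [prob_restrict h (Hit n (thick r A)), prob_half, prob_half]
    refine le_trans ?_ (add_le_add le_rfl hr)
    refine le_trans (Pr_mono ok2 ?_) (Pr_or_le ok2 _ _ _)
    intro F _ hA
    by_cases hF : Apart r n m F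
    · exact Or.inr hF
    · exact Or.inl ((key F hF).2 hA)

theorem mean_of {n m : ℕ} (h : n ≤ m) {r : ℝ} (hr0 : 0 ≤ r) (hr : prob m (Apart r n m) ≤ r)
    {T T' : ℕ → Finset Edge → Curve} (hT : Rule T) (hT' : Rule T') {φ : Curve → ℝ}
    (hφ : Obs φ) : |mean T φ n - mean T' φ m| ≤ 3 * r := by
  rw [mean_restrict h, mean_eq]
  rw [prob_half] at hr
  have key : ∀ F, F ⊆ edges m →
      |φ (T n (F ∩ edges n)) - φ (T' m F)| ≤ r + 2 * ind (Apart r n m F) := by
    intro F hF
    by_cases hA : Apart r n m F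
    · rw [ind_of hA]
      have h1 := hφ.bdd (T n (F ∩ edges n))
      have h2 := hφ.bdd (T' m F)
      rw [abs_le] at h1 h2 ⊢
      constructor <;> linarith
    · rw [ind_not_of hA]
      obtain ⟨w, hw, hwT⟩ := hT n (F ∩ edges n) Finset.inter_subset_right
      obtain ⟨v, hv, hvT⟩ := hT' m F hF
      have hN : Near r m F v n (F ∩ edges n) w := by
        by_contra hcon
        exact hA ⟨v, w, hv, hw, hcon⟩
      obtain ⟨c', h1, h2⟩ := hN.1 _ hvT
      rw [hφ.base n _ w _ c' hwT h1]
      have h3 := hφ.lip c' (T' m F)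
      rw [H342L.cdist_comm] at h3
      linarith
  have hsum : Ex (fun _ => (1/2:ℝ)) (edges m) (fun F => r + 2 * ind (Apart r n m F)) ≤ 3 * r := by
    rw [Ex_add, Ex_const, Ex_mul_left]
    have : Ex (fun _ => (1/2:ℝ)) (edges m) (fun F => ind (Apart r n m F)) ≤ r := hr
    linarith
  rw [abs_le]
  constructor
  · have h1 : Ex (fun _ => (1/2:ℝ)) (edges m) (fun F => φ (T' m F) - φ (T n (F ∩ edges n))) ≤
        Ex (fun _ => (1/2:ℝ)) (edges m) (fun F => r + 2 * ind (Apart r n m F)) := by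
      apply Ex_mono ok2
      intro F hF
      have := (abs_le.1 (key F hF)).1
      linarith
    rw [Ex_sub] at h1
    linarith
  · have h1 : Ex (fun _ => (1/2:ℝ)) (edges m) (fun F => φ (T n (F ∩ edges n)) - φ (T' m F)) ≤
        Ex (fun _ => (1/2:ℝ)) (edges m) (fun F => r + 2 * ind (Apart r n m F)) := by
      apply Ex_mono ok2
      intro F hF
      exact (abs_le.1 (key F hF)).2
    rw [Ex_sub] at h1
    linarith

theorem prob_mono' {n : ℕ} {A B : Finset Edge → Prop} (h : ∀ F, A F → B F) :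
    prob n A ≤ prob n B := by
  rw [prob_half, prob_half]
  exact Pr_mono ok2 (fun F _ => h F)

theorem LPClose.symm {r : ℝ} {n m : ℕ} (h : LPClose r n m) : LPClose r m n :=
  fun A => ⟨(h A).2, (h A).1⟩

theorem hit_mono {n : ℕ} {A B : Set Curve} (h : A ⊆ B) (F : Finset Edge) :
    Hit n A F → Hit n B F := by
  rintro ⟨v, hv, c, hc, hA⟩
  exact ⟨v, hv, c, hc, h hA⟩

theorem LPClose.trans {r s : ℝ} {n m l : ℕ} (h : LPClose r n m) (h' : LPClose s m l) :
    LPClose (r + s) n l := by
  have key : ∀ (r s : ℝ) (n m l : ℕ), (∀ A, prob n (Hit n A) ≤ prob m (Hit m (thick r A)) + r) →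
      (∀ A, prob m (Hit m A) ≤ prob l (Hit l (thick s A)) + s) →
      ∀ A, prob n (Hit n A) ≤ prob l (Hit l (thick (r + s) A)) + (r + s) := by
    intro r s n m l h1 h2 A
    have h3 := h1 A
    have h4 := h2 (thick r A)
    have h5 : prob l (Hit l (thick s (thick r A))) ≤ prob l (Hit l (thick (r + s) A)) := by
      apply prob_mono'
      apply hit_mono
      rintro c ⟨c', ⟨c'', h6, h7⟩, h8⟩
      refine ⟨c'', h6, (H342L.cdist_triangle _ c'.path _).trans ?_⟩
      linarith
    linarith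
  intro A
  refine ⟨key r s n m l (fun A => (h A).1) (fun A => (h' A).1) A, ?_⟩
  rw [add_comm r s]
  exact key s r l m n (fun A => (h' A).2) (fun A => (h A).2) A

theorem LPClose.mono {r s : ℝ} {n m : ℕ} (h : LPClose r n m) (hrs : r ≤ s) : LPClose s n m := by
  intro A
  have h1 : ∀ l, prob l (Hit l (thick r A)) ≤ prob l (Hit l (thick s A)) := by
    intro l
    apply prob_mono'
    apply hit_mono
    rintro c ⟨c', h6, h7⟩
    exact ⟨c', h6, h7.trans hrs⟩
  exact ⟨(h A).1.trans (add_le_add (h1 m) hrs), (h A).2.trans (add_le_add (h1 n) hrs)⟩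

/-- The place of a size in a sequence. -/
theorem place {u : ℕ → ℕ} (hu : Tendsto u atTop atTop) (K : ℕ) :
    ∃ M, ∀ n, M ≤ n → ∃ k, K ≤ k ∧ u k ≤ n ∧ n < u (k + 1) := by
  obtain ⟨M, hM⟩ : ∃ M, M = (Finset.range (K + 1)).sup u := ⟨_, rfl⟩
  refine ⟨M, fun n hn => ?_⟩
  have h1 : u K ≤ n := by
    refine le_trans ?_ hn
    rw [hM]
    exact Finset.le_sup (f := u) (Finset.mem_range.2 (Nat.lt_succ_self K))
  have hex : ∃ j, n < u (K + j) := by
    obtain ⟨j, hj⟩ := (Filter.tendsto_atTop.1 hu (n + 1)).exists_forall_of_atTop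
    exact ⟨j, by have := hj (K + j) (by omega); omega⟩
  classical
  obtain ⟨j, hj⟩ : ∃ j, j = Nat.find hex := ⟨_, rfl⟩
  have hj1 : n < u (K + j) := by rw [hj]; exact Nat.find_spec hex
  have hj0 : 0 < j := by
    rcases Nat.eq_zero_or_pos j with h | h
    · rw [h] at hj1
      simp only [add_zero] at hj1
      omega
    · exact h
  have hj2 : u (K + (j - 1)) ≤ n := by
    by_contra hcon
    push Not at hcon
    have := Nat.find_min' hex hcon
    omega
  refine ⟨K + (j - 1), by omega, hj2, ?_⟩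
  rw [show K + (j - 1) + 1 = K + j by omega]
  exact hj1

/-- The error along a sequence of sizes. -/
theorem err_seq {C c : ℝ} (hC : 0 < C) (hc : 0 < c) {u : ℕ → ℕ} (hu : Tendsto u atTop atTop)
    (hu' : Tendsto (fun k => (u (k + 1) : ℝ) / u k) atTop (𝓝 1)) {ε : ℝ} (hε : 0 < ε) :
    ∃ K, ∀ k, K ≤ k → 1 ≤ u k ∧ ∀ n, u k ≤ n → n < u (k + 1) → err C c (u k) n ≤ ε := by
  obtain ⟨δ, hδ⟩ : ∃ δ : ℝ, δ = (ε / C) ^ (1 / c) := ⟨_, rfl⟩
  have hδ0 : 0 < δ := by rw [hδ]; positivity
  have h1 : ∀ᶠ k in atTop, (u (k + 1) : ℝ) / u k < 1 + δ :=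
    hu'.eventually_lt_const (by linarith)
  have h2 : ∀ᶠ k in atTop, 1 ≤ u k := Filter.tendsto_atTop.1 hu 1
  obtain ⟨K, hK⟩ := (h1.and h2).exists_forall_of_atTop
  refine ⟨K, fun k hk => ?_⟩
  obtain ⟨h3, h4⟩ := hK k hk
  refine ⟨h4, fun n hn1 hn2 => ?_⟩
  have hu0 : (0:ℝ) < u k := by exact_mod_cast h4
  have h5 : ((n:ℝ) - u k + 1) / u k ≤ δ := by
    have h6 : (n:ℝ) + 1 ≤ u (k + 1) := by exact_mod_cast hn2
    rw [div_lt_iff₀ hu0] at h3
    rw [div_le_iff₀ hu0]
    nlinarith
  have h6 : 0 ≤ ((n:ℝ) - u k + 1) / u k := by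
    have : (u k : ℝ) ≤ n := by exact_mod_cast hn1
    apply div_nonneg _ hu0.le
    linarith
  unfold err
  calc C * (((n:ℝ) - u k + 1) / u k) ^ c ≤ C * δ ^ c :=
        mul_le_mul_of_nonneg_left (Real.rpow_le_rpow h6 h5 hc.le) hC.le
    _ = ε := by
        rw [hδ, ← Real.rpow_mul (by positivity), one_div, inv_mul_cancel₀ hc.ne', Real.rpow_one]
        field_simp

/-- A sequence with small steps has an interval of limit points. -/
theorem interval {a : ℕ → ℝ} (ha : Tendsto (fun n => a (n + 1) - a n) atTop (𝓝 0)) :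
    Set.OrdConnected {y | MapClusterPt y atTop a} := by
  have hcl : ∀ y : ℝ, MapClusterPt y atTop a ↔ ∀ ε > 0, ∀ M, ∃ n, M ≤ n ∧ |a n - y| < ε := by
    intro y
    rw [mapClusterPt_iff_frequently]
    constructor
    · intro h ε hε M
      have h1 := h (Metric.ball y ε) (Metric.ball_mem_nhds y hε)
      rw [Filter.frequently_atTop] at h1
      obtain ⟨n, hn, h2⟩ := h1 M
      exact ⟨n, hn, by rwa [Metric.mem_ball, Real.dist_eq] at h2⟩
    · intro h s hs
      obtain ⟨ε, hε, h1⟩ := Metric.mem_nhds_iff.1 hs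
      rw [Filter.frequently_atTop]
      intro M
      obtain ⟨n, hn, h2⟩ := h ε hε M
      exact ⟨n, hn, h1 (by rwa [Metric.mem_ball, Real.dist_eq])⟩
  refine ⟨fun y1 h1 y2 h2 y hy => ?_⟩
  rw [Set.mem_ofPred_eq, hcl] at h1 h2 ⊢
  obtain ⟨hy1, hy2⟩ := hy
  rcases hy1.lt_or_eq with hy1 | rfl
  · rcases hy2.lt_or_eq with hy2 | rfl
    · intro ε hε M
      obtain ⟨M', hM'⟩ := (Metric.tendsto_atTop.1 ha) ε hε
      obtain ⟨n1, hn1, k1⟩ := h1 (y - y1) (by linarith) (max M M')
      obtain ⟨n2, hn2, k2⟩ := h2 (y2 - y) (by linarith) (n1 + 1)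
      rw [abs_lt] at k1 k2
      have hex : ∃ j, y ≤ a (n1 + j) := ⟨n2 - n1, by
        rw [show n1 + (n2 - n1) = n2 by omega]; linarith⟩
      classical
      obtain ⟨j, hj⟩ : ∃ j, j = Nat.find hex := ⟨_, rfl⟩
      have hj1 : y ≤ a (n1 + j) := by rw [hj]; exact Nat.find_spec hex
      have hj0 : 0 < j := by
        rcases Nat.eq_zero_or_pos j with h | h
        · rw [h, add_zero] at hj1
          linarith
        · exact h
      have hj2 : a (n1 + (j - 1)) < y := by
        by_contra hcon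
        push Not at hcon
        have := Nat.find_min' hex hcon
        omega
      have h3 := hM' (n1 + (j - 1)) (by have := le_max_right M M'; omega)
      rw [Real.dist_eq, sub_zero, show n1 + (j - 1) + 1 = n1 + j by omega, abs_lt] at h3
      refine ⟨n1 + j, by have := le_max_left M M'; omega, ?_⟩
      rw [abs_lt]
      constructor <;> linarith
    · exact h2
  · exact h1

/-- There are rules. -/
theorem exists_rule : ∃ T, Rule T := by
  classical
  have h : ∀ (n : ℕ) (F : Finset Edge), ∃ c : Curve, F ⊆ edges n →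
      ∃ v, Largest n F v ∧ IsTrace n F v c := by
    intro n F
    by_cases hF : F ⊆ edges n
    · obtain ⟨v, hv⟩ := exists_largest n F
      have hF' : F ⊆ RE 0 n 0 n := by rw [← edges_eq]; exact hF
      obtain ⟨a, ha, -⟩ := Pool.Agent.H950.AD.ext_states hF'
        (Pool.Agent.H950.AD.inR_of_mem hv.1)
      obtain ⟨N, hN⟩ := Pool.Agent.H950.AD.exists_per F a
      rw [Pool.Agent.H950.AD.MM_plain] at ha
      exact ⟨⟨H342T.poly (fun j => H342L.pt n (H984P.orb (↑F : Set Edg) a j).1) N⟩, fun _ =>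
        ⟨v, hv, a, N, hN.1, ha.1, ha.2, hN.2.1, hN.2.2, rfl⟩⟩
    · exact ⟨⟨ContinuousMap.const _ 0⟩, fun h => absurd h hF⟩
  choose T hT using h
  exact ⟨T, fun n F hF => hT n F hF⟩

/-- **Slow variation of the law of the outer perimeter of the largest cluster.** -/
theorem result : (∃ T, Rule T) ∧ ∃ C c : ℝ, 0 < C ∧ 0 < c ∧
    (∀ n m : ℕ, 1 ≤ n → n ≤ m →
      -- the coupling
      prob m (Apart (err C c n m) n m) ≤ err C c n m ∧
      -- the laws
      LPClose (err C c n m) n m ∧
      ∀ (T T' : ℕ → Finset Edge → Curve) (φ : Curve → ℝ), Rule T → Rule T' → Obs φ →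
        |mean T φ n - mean T' φ m| ≤ 3 * err C c n m) ∧
    -- subsequences
    (∀ u : ℕ → ℕ, Tendsto u atTop atTop →
      Tendsto (fun k => (u (k + 1) : ℝ) / u k) atTop (𝓝 1) →
      ((∀ ε > 0, ∃ K, ∀ k ≥ K, ∀ l ≥ K, LPClose ε (u k) (u l)) →
        ∀ ε > 0, ∃ M, ∀ n ≥ M, ∀ m ≥ M, LPClose ε n m) ∧
      ∀ (T : ℕ → Finset Edge → Curve) (φ : Curve → ℝ) (a : ℝ), Rule T → Obs φ →
        Tendsto (fun k => mean T φ (u k)) atTop (𝓝 a) → Tendsto (mean T φ) atTop (𝓝 a)) ∧
    -- limit points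
    ∀ (T : ℕ → Finset Edge → Curve) (φ : Curve → ℝ), Rule T → Obs φ →
      Set.OrdConnected {y | MapClusterPt y atTop (mean T φ)} := by
  refine ⟨exists_rule, ?_⟩
  obtain ⟨C, c, hC, hc, h⟩ := Pool.Agent.H950.SV.slow_all
  have hA : ∀ n m : ℕ, 1 ≤ n → n ≤ m → prob m (Apart (err C c n m) n m) ≤ err C c n m :=
    fun n m hn hm => h n m hn hm
  have he : ∀ n m : ℕ, n ≤ m → 0 ≤ err C c n m := by
    intro n m hnm
    have : (n:ℝ) ≤ m := by exact_mod_cast hnm
    unfold err
    have h1 : 0 ≤ ((m:ℝ) - n + 1) / n := div_nonneg (by linarith) (Nat.cast_nonneg n)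
    positivity
  have hm : ∀ n m : ℕ, 1 ≤ n → n ≤ m → ∀ (T T' : ℕ → Finset Edge → Curve) (φ : Curve → ℝ),
      Rule T → Rule T' → Obs φ → |mean T φ n - mean T' φ m| ≤ 3 * err C c n m :=
    fun n m hn hnm T T' φ hT hT' hφ => mean_of hnm (he n m hnm) (hA n m hn hnm) hT hT' hφ
  refine ⟨C, c, hC, hc, fun n m hn hnm => ⟨hA n m hn hnm, lp_of hnm (hA n m hn hnm),
    hm n m hn hnm⟩, ?_, ?_⟩
  · intro u hu hu'
    constructor
    · intro hcau ε hε
      obtain ⟨K1, hK1⟩ := err_seq hC hc hu hu' (ε := ε / 3) (by positivity)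
      obtain ⟨K2, hK2⟩ := hcau (ε / 3) (by positivity)
      obtain ⟨M, hM⟩ := place hu (max K1 K2)
      refine ⟨M, fun n hn m hm' => ?_⟩
      obtain ⟨k, hk1, hk2, hk3⟩ := hM n hn
      obtain ⟨l, hl1, hl2, hl3⟩ := hM m hm'
      obtain ⟨a1, a2⟩ := hK1 k (le_trans (le_max_left _ _) hk1)
      obtain ⟨b1, b2⟩ := hK1 l (le_trans (le_max_left _ _) hl1)
      have c1 := (lp_of hk2 (hA _ _ a1 hk2)).mono (a2 n hk2 hk3)
      have c2 := (lp_of hl2 (hA _ _ b1 hl2)).mono (b2 m hl2 hl3)
      have c3 := hK2 k (le_trans (le_max_right _ _) hk1) l (le_trans (le_max_right _ _) hl1)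
      exact ((c1.symm.trans c3).trans c2).mono (by linarith)
    · intro T φ a hT hφ ha
      rw [Metric.tendsto_atTop] at ha ⊢
      intro ε hε
      obtain ⟨K1, hK1⟩ := err_seq hC hc hu hu' (ε := ε / 6) (by positivity)
      obtain ⟨K2, hK2⟩ := ha (ε / 2) (by positivity)
      obtain ⟨M, hM⟩ := place hu (max K1 K2)
      refine ⟨M, fun n hn => ?_⟩
      obtain ⟨k, hk1, hk2, hk3⟩ := hM n hn
      obtain ⟨a1, a2⟩ := hK1 k (le_trans (le_max_left _ _) hk1)
      have c1 := hm (u k) n a1 hk2 T T φ hT hT hφ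
      have c2 := a2 n hk2 hk3
      have c3 := hK2 k (le_trans (le_max_right _ _) hk1)
      rw [Real.dist_eq] at c3 ⊢
      rw [abs_lt] at c3 ⊢
      rw [abs_le] at c1
      constructor <;> linarith
  · intro T φ hT hφ
    apply interval
    rw [Metric.tendsto_atTop]
    intro ε hε
    obtain ⟨δ, hδ⟩ : ∃ δ : ℝ, δ = (ε / (6 * C)) ^ (1 / c) := ⟨_, rfl⟩
    have hδ0 : 0 < δ := by rw [hδ]; positivity
    refine ⟨⌈2 / δ⌉₊ + 1, fun n hn => ?_⟩
    have hn0 : (0:ℝ) < n := by
      have : 0 < n := by omega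
      exact_mod_cast this
    have h1 : 2 / δ ≤ n := by
      refine (Nat.le_ceil _).trans ?_
      have : ⌈2 / δ⌉₊ ≤ n := by omega
      exact_mod_cast this
    have h2 : (((n + 1 : ℕ) : ℝ) - n + 1) / n ≤ δ := by
      push_cast
      rw [div_le_iff₀ hδ0] at h1
      rw [div_le_iff₀ hn0]
      linarith
    have h3 : 0 ≤ (((n + 1 : ℕ) : ℝ) - n + 1) / n := by
      push_cast
      apply div_nonneg _ hn0.le
      linarith
    have h4 : err C c n (n + 1) ≤ ε / 6 := by
      unfold err
      calc C * ((((n + 1 : ℕ) : ℝ) - n + 1) / n) ^ c ≤ C * δ ^ c :=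
            mul_le_mul_of_nonneg_left (Real.rpow_le_rpow h3 h2 hc.le) hC.le
        _ = ε / 6 := by
            rw [hδ, ← Real.rpow_mul (by positivity), one_div, inv_mul_cancel₀ hc.ne',
              Real.rpow_one]
            field_simp
    have h5 := hm n (n + 1) (by omega) (by omega) T T φ hT hT hφ
    rw [Real.dist_eq, sub_zero, abs_sub_comm]
    linarith

end Pool.Agent.Results.MP_6bd702_pr.SlowVariation
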