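import Pool.Agent.H966.N6.Fin
import Pool.Agent.H966.N6.G
import Pool.Agent.H966.N6.A
import Pool.Agent.H966.N6.W
import Pool.Agent.H966.N6.P
import Pool.Agent.H966.N6.D
import Pool.Agent.H966.N6.R
import Pool.Agent.H966.N6.Z

/-!
Critical bond percolation on `ℤ²` (`p = 1/2`, the lattice is rotated by 45 degrees) in the plane cut
along a half-line (slit): the horizontal shape of the open cluster of the tip of the slit. The exact
joint law of its left and right extents, its local limit, and the position of the tip: for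
a cluster of large width, the ratio of the right extent and the width has asymptotically the law
`Beta(5/6, 5/6)`, and the width has a regularly varying tail of exponent `1/6` with an explicit constant.

Coordinates: the vertex `(u,v)` of `ℤ²` has the column `u - v` and the height `u + v`. The slit is
the half-line of the column `0` and the heights `≥ 0`; its tip is the vertex `(0,0)`.
-/

set_option autoImplicit false

namespace Pool.Agent.Results.MP_6bd702_pr.TipClusterExtents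

open MeasureTheory Filter Topology Finset

/-- edges of `ℤ²`: `(u,v,false)` joins `(u,v)` and `(u+1,v)`; `(u,v,true)` joins `(u,v)` and
`(u,v+1)`. -/
abbrev Edge := ℤ × ℤ × Bool

/-- configurations (`true` = open) -/
abbrev Conf := Edge → Bool

/-- `x` and `y` are the two ends of an open edge -/
def OpenAdj (ω : Conf) (x y : ℤ × ℤ) : Prop :=
  (y = (x.1 + 1, x.2) ∧ ω (x.1, x.2, false) = true) ∨
  (x = (y.1 + 1, y.2) ∧ ω (y.1, y.2, false) = true) ∨
  (y = (x.1, x.2 + 1) ∧ ω (x.1, x.2, true) = true) ∨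
  (x = (y.1, y.2 + 1) ∧ ω (y.1, y.2, true) = true)

/-- bond percolation at `p = 1/2`: independent fair coins on the edges -/
noncomputable def perc : Measure Conf :=
  Measure.infinitePi (fun _ : Edge => (PMF.uniformOfFintype Bool).toMeasure)

/-- the column of a vertex -/
def col (x : ℤ × ℤ) : ℤ := x.1 - x.2

/-- the height of a vertex -/
def height (x : ℤ × ℤ) : ℤ := x.1 + x.2

/-- open edges of the slit plane: the edges at the heights `≥ 0` that touch the column `0` are
removed -/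
def SlitAdj (ω : Conf) (x y : ℤ × ℤ) : Prop :=
  OpenAdj ω x y ∧ ¬ (0 ≤ height x ∧ 0 ≤ height y ∧ (col x = 0 ∨ col y = 0))

/-- `y` is in the open cluster of the tip `(0,0)` -/
def InCluster (ω : Conf) (y : ℤ × ℤ) : Prop := Relation.ReflTransGen (SlitAdj ω) (0, 0) y

/-- the cluster reaches the column `-2k` -/
def ReachLeft (k : ℕ) : Set Conf := {ω | ∃ y, InCluster ω y ∧ col y ≤ -(2*(k:ℤ))}

/-- the cluster reaches the column `2l` -/
def ReachRight (l : ℕ) : Set Conf := {ω | ∃ y, InCluster ω y ∧ 2*(l:ℤ) ≤ col y}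

/-- the left extent of the cluster is `k` and its right extent is `l`, in units of two columns: the
leftmost column of the cluster is `-2k` or `-2k-1`, the rightmost one is `2l` or `2l+1` -/
def Extents (ω : Conf) (k l : ℕ) : Prop :=
  ω ∈ ReachLeft k ∧ ω ∉ ReachLeft (k+1) ∧ ω ∈ ReachRight l ∧ ω ∉ ReachRight (l+1)

/-- the width of the cluster (left extent plus right extent) is `w` and the tip is at most at the
position `s`: right extent `≤ s w` -/
def WidthPos (w : ℕ) (s : ℝ) : Set Conf :=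
  {ω | ∃ k l : ℕ, k + l = w ∧ (l:ℝ) ≤ s * w ∧ Extents ω k l}

/-- the width of the cluster is at least `N` and the right extent is at most `s` times the width -/
def WidePos (N : ℕ) (s : ℝ) : Set Conf :=
  {ω | ∃ k l : ℕ, N ≤ k + l ∧ (l:ℝ) ≤ s * ((k:ℝ) + l) ∧ Extents ω k l}

/-- `G k = ∏_{i<2k} (i+1/3)/(i+1/2)` -/
noncomputable def G (k : ℕ) : ℝ := ∏ i ∈ range (2*k), (((i:ℝ) + 1/3) / ((i:ℝ) + 1/2))

/-- the constant `(5/36) (√π / Γ(1/3)) 2^(-1/6)` -/
noncomputable def c0 : ℝ := 5/36 * (√Real.pi / Real.Gamma (1/3) * 2^(-(1:ℝ)/6))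

/-- the incomplete Beta function `∫_0^s (t(1-t))^(-1/6) dt` -/
noncomputable def beta (s : ℝ) : ℝ := ∫ t in (0:ℝ)..s, (t*(1-t))^(-(1:ℝ)/6)

/-! ## Proofs -/

theorem ext_iff (ω : Conf) (k l : ℕ) : Extents ω k l ↔ ω ∈ Pool.Agent.H966.N6.Win k l := Iff.rfl

theorem hMeas : Pool.Agent.H966.N6.S_Meas := Pool.Agent.H966.N6.t_Meas

theorem hU : ∀ k l : ℕ, Pool.Agent.H988R2.Perc.perc.real
    (Pool.Agent.H966.N6.RL k ∪ Pool.Agent.H966.N6.RR l) = Pool.Agent.H966.N6.U k l :=
  Pool.Agent.H966.N6.t_W1 Pool.Agent.H966.N6.t_Geo hMeas Pool.Agent.H966.N6.t_Ex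

theorem hW : ∀ k l : ℕ, Pool.Agent.H988R2.Perc.perc.real (Pool.Agent.H966.N6.Win k l) =
    Pool.Agent.H966.N6.pp k l := Pool.Agent.H966.N6.t_W2 hMeas hU

theorem hMar : (∀ k, Pool.Agent.H988R2.Perc.perc.real (Pool.Agent.H966.N6.RL k) =
    Pool.Agent.H966.N6.G k) ∧ ∀ l, Pool.Agent.H988R2.Perc.perc.real (Pool.Agent.H966.N6.RR l) =
    Pool.Agent.H966.N6.G l := Pool.Agent.H966.N6.t_M Pool.Agent.H966.N6.t_A hMeas hU

theorem dens_eq (t : ℝ) : Pool.Agent.H966.N6.dens t = c0 * (t*(1-t))^(-(1:ℝ)/6) := rfl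

theorem int_dens (s : ℝ) : ∫ t in (0:ℝ)..s, Pool.Agent.H966.N6.dens t = c0 * beta s := by
  simp only [dens_eq]
  exact intervalIntegral.integral_const_mul _ _

theorem c0_pos : 0 < c0 := by
  have : 0 < Real.Gamma (1/3) := Real.Gamma_pos_of_pos (by norm_num)
  unfold c0
  positivity

theorem beta_pos : 0 < beta 1 := by
  unfold beta
  have hI := Pool.Agent.H966.N6.beta_int
  refine intervalIntegral.intervalIntegral_pos_of_pos_on hI (fun t ht => ?_) one_pos
  have h1 : 0 < t := ht.1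
  have h2 : 0 < 1 - t := by linarith [ht.2]
  positivity

theorem lim_width (s : ℝ) (h0 : 0 ≤ s) (h1 : s ≤ 1) :
    Tendsto (fun w : ℕ => (w:ℝ)^((7:ℝ)/6) * perc.real (WidthPos w s)) atTop (𝓝 (c0 * beta s)) := by
  have h := Pool.Agent.H966.N6.t_R Pool.Agent.H966.N6.t_P1
    (Pool.Agent.H966.N6.t_D Pool.Agent.H966.N6.t_A Pool.Agent.H966.N6.t_P1
      Pool.Agent.H966.N6.t_P2).1
    (Pool.Agent.H966.N6.t_D Pool.Agent.H966.N6.t_A Pool.Agent.H966.N6.t_P1
      Pool.Agent.H966.N6.t_P2).2 s h0 h1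
  rw [int_dens] at h
  refine h.congr fun w => ?_
  congr 1
  exact (Pool.Agent.H966.N6.Ev_real hMeas hW w s).symm

theorem lim_wide (s : ℝ) (h0 : 0 ≤ s) (h1 : s ≤ 1) :
    Tendsto (fun N : ℕ => (N:ℝ)^((1:ℝ)/6) * perc.real (WidePos N s)) atTop
      (𝓝 (6 * (c0 * beta s))) := by
  have hq : Tendsto (fun w : ℕ => (w:ℝ)^((7:ℝ)/6) * Pool.Agent.H966.N6.qq s w) atTop
      (𝓝 (c0 * beta s)) := by
    refine (lim_width s h0 h1).congr fun w => ?_
    congr 1
    exact Pool.Agent.H966.N6.Ev_real hMeas hW w s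
  have hs : Summable (Pool.Agent.H966.N6.qq s) := (Pool.Agent.H966.N6.Ev'_sum hMeas hW 0 s).1
  refine (Pool.Agent.H966.N6.t_Z _ _ (Pool.Agent.H966.N6.qq_nonneg hMeas hW s) hs hq).congr
    fun N => ?_
  congr 1
  exact (Pool.Agent.H966.N6.Ev'_sum hMeas hW N s).2.symm

theorem ratio_width (s : ℝ) (h0 : 0 ≤ s) (h1 : s ≤ 1) :
    Tendsto (fun w : ℕ => perc.real (WidthPos w s) / perc.real (WidthPos w 1)) atTop
      (𝓝 (beta s / beta 1)) := by
  have h := (lim_width s h0 h1).div (lim_width 1 zero_le_one le_rfl)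
    (mul_pos c0_pos beta_pos).ne'
  rw [mul_div_mul_left _ _ c0_pos.ne'] at h
  refine h.congr' ?_
  filter_upwards [eventually_gt_atTop 0] with w hw
  have hw' : (0:ℝ) < w := by exact_mod_cast hw
  simp only [Pi.div_apply]
  rw [mul_div_mul_left _ _ (Real.rpow_pos_of_pos hw' _).ne']

theorem ratio_wide (s : ℝ) (h0 : 0 ≤ s) (h1 : s ≤ 1) :
    Tendsto (fun N : ℕ => perc.real (WidePos N s) / perc.real (WidePos N 1)) atTop
      (𝓝 (beta s / beta 1)) := by
  have h := (lim_wide s h0 h1).div (lim_wide 1 zero_le_one le_rfl)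
    (mul_pos (by norm_num) (mul_pos c0_pos beta_pos)).ne'
  rw [mul_div_mul_left _ _ (by norm_num : (6:ℝ) ≠ 0), mul_div_mul_left _ _ c0_pos.ne'] at h
  refine h.congr' ?_
  filter_upwards [eventually_gt_atTop 0] with w hw
  have hw' : (0:ℝ) < w := by exact_mod_cast hw
  simp only [Pi.div_apply]
  rw [mul_div_mul_left _ _ (Real.rpow_pos_of_pos hw' _).ne']

/-- **The horizontal shape of the cluster of the tip of a slit.**
(1) Almost surely the cluster of the tip has finite extents (left extent `k`, right extent `l`, in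
units of two columns).
(2) Exact joint law: `P(left extent ≥ k or right extent ≥ l) = G k G l / G (k+l)` for all `k, l ≥ 0`, and
the marginals `P(left extent ≥ k) = P(right extent ≥ k) = G k`.
(3) Local limit: if `k + l → ∞` and `l / (k+l) → t`, `0 < t < 1`, then
`(k+l)^(13/6) P(extents (k,l)) → c0 (t(1-t))^(-1/6)`.
(4) For `0 ≤ s ≤ 1`: `w^(7/6) P(width = w, right extent ≤ s width) → c0 beta s` and
`N^(1/6) P(width ≥ N, right extent ≤ s width) → 6 c0 beta s`.
(5) Given that the width is `w`, or that it is at least `w`, the ratio of the right extent and the width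
converges in law to `Beta(5/6,5/6)` as `w → ∞`. -/
theorem result :
    (∀ᵐ ω ∂perc, ∃ k l, Extents ω k l) ∧
    (∀ k l : ℕ, perc.real (ReachLeft k ∪ ReachRight l) = G k * G l / G (k+l) ∧
      perc.real (ReachLeft k) = G k ∧ perc.real (ReachRight l) = G l) ∧
    (∀ (t : ℝ) (k l : ℕ → ℕ), 0 < t → t < 1 → Tendsto (fun n => k n + l n) atTop atTop →
      Tendsto (fun n => (l n : ℝ) / ((k n : ℝ) + l n)) atTop (𝓝 t) →
      Tendsto (fun n => perc.real {ω | Extents ω (k n) (l n)} *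
        ((k n : ℝ) + l n)^((13:ℝ)/6)) atTop (𝓝 (c0 * (t*(1-t))^(-(1:ℝ)/6)))) ∧
    (∀ s : ℝ, 0 ≤ s → s ≤ 1 →
      Tendsto (fun w : ℕ => (w:ℝ)^((7:ℝ)/6) * perc.real (WidthPos w s)) atTop
        (𝓝 (c0 * beta s)) ∧
      Tendsto (fun N : ℕ => (N:ℝ)^((1:ℝ)/6) * perc.real (WidePos N s)) atTop
        (𝓝 (6 * (c0 * beta s)))) ∧
    (∀ s : ℝ, 0 ≤ s → s ≤ 1 →
      Tendsto (fun w : ℕ => perc.real (WidthPos w s) / perc.real (WidthPos w 1)) atTop
        (𝓝 (beta s / beta 1)) ∧
      Tendsto (fun N : ℕ => perc.real (WidePos N s) / perc.real (WidePos N 1)) atTop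
        (𝓝 (beta s / beta 1))) := by
  refine ⟨?_, fun k l => ⟨hU k l, hMar.1 k, hMar.2 l⟩, ?_, fun s h0 h1 => ⟨lim_width s h0 h1,
    lim_wide s h0 h1⟩, fun s h0 h1 => ⟨ratio_width s h0 h1, ratio_wide s h0 h1⟩⟩
  · exact Pool.Agent.H966.N6.ae_ext hMar.1 hMar.2
      (Pool.Agent.H966.N6.G_zero Pool.Agent.H966.N6.t_A)
  · intro t k l h0 h1 hk hl
    have h := (Pool.Agent.H966.N6.t_D Pool.Agent.H966.N6.t_A Pool.Agent.H966.N6.t_P1
      Pool.Agent.H966.N6.t_P2).1 t k l h0 h1 hk hl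
    refine h.congr fun n => ?_
    congr 1
    exact (hW (k n) (l n)).symm

end Pool.Agent.Results.MP_6bd702_pr.TipClusterExtents
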